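import Pool.Agent.H6.FQ.Ker
import Pool.Agent.H81.Q.Own

set_option autoImplicit false

/-!
From the sides of a rooted code to the matrix statement: `Pairs` and `P4Split` (MP_a46c6f_co, full
Q1).
-/

namespace Pool.Agent.H6.FQ

open Pool.Agent.H98.Code Pool.Agent.H17.TR Pool.Agent.H6.P4 Pool.Agent.H77.Q Pool.Agent.H81.Q
open Pool.Agent.H17.P3 (Pairs IsP4 Bad P4Split)

variable {V : Type} [Fintype V] [DecidableEq V]
variable {H : V → V → ZMod 2} {e : V} {M : V → V → ZMod 2}

/-- the first coordinates of the word of the family `p` -/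
def sm (M : V → V → ZMod 2) {n : ℕ} (p : Fin n → V) : V → ZMod 2 := fun y => ∑ i, M (p i) y

/-- good families of points -/
structure Good (M : V → V → ZMod 2) (e : V) {n : ℕ} (p : Fin n → V) : Prop where
  even : ((n : ℕ) : ZMod 2) = 0
  pos : 0 < n
  inj : Function.Injective p
  ne : ∀ i, p i ≠ e
  cl : ∀ j, ∑ i, M (p i) (p j) = 1
  irr : ∀ α : Fin n → ZMod 2, ∑ i, α i = 0 → (∀ j, ∑ i, α i * M (p i) (p j) = α j) →
    (∀ i, α i = 0) ∨ (∀ i, α i = 1)
  sol : ∀ y, ∑ i, M (p i) y = 0 → ∃ (c : ZMod 2) (α : Fin n → ZMod 2),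
    ∀ j, M y (p j) + c + ∑ i, α i * M (p i) (p j) = α j

/-- the hypotheses on `M` -/
structure HM (H : V → V → ZMod 2) (e : V) (M : V → V → ZMod 2) : Prop where
  hs : ∀ u v, H u v = H v u
  h0 : ∀ x, M x e = 0
  hl : ∀ x v, Lap H (M x) v = (if v = x then 1 else 0) + (if v = e then 1 else 0)

theorem lap_sum {n : ℕ} (α : Fin n → ZMod 2) (F : Fin n → V → ZMod 2) (v : V) :
    Lap H (fun y => ∑ i, α i * F i y) v = ∑ i, α i * Lap H (F i) v := by
  unfold Lap
  simp only [Finset.mul_sum]
  rw [Finset.sum_comm]
  refine Finset.sum_congr rfl fun w _ => ?_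
  rw [← Finset.sum_add_distrib, Finset.mul_sum]
  refine Finset.sum_congr rfl fun i _ => ?_
  ring

section
variable (hM : HM H e M)
include hM

theorem HM.sum_e {n : ℕ} (α : Fin n → ZMod 2) (h : ∑ i, α i = 0) (p : Fin n → V) (v : V) :
    Lap H (fun y => ∑ i, α i * M (p i) y) v = ∑ i, α i * (if v = p i then 1 else 0) := by
  rw [lap_sum]
  simp only [hM.hl, mul_add, Finset.sum_add_distrib]
  rw [← Finset.sum_mul, h, zero_mul, add_zero]

theorem HM.lap_sm {n : ℕ} (p : Fin n → V) (hn : ((n : ℕ) : ZMod 2) = 0) (v : V) :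
    Lap H (sm M p) v = ∑ i, (if v = p i then 1 else 0) := by
  have h1 := hM.sum_e (fun _ : Fin n => (1 : ZMod 2)) (by
    rw [Finset.sum_const, Finset.card_univ, Fintype.card_fin, nsmul_eq_mul, hn, zero_mul]) p v
  simp only [one_mul] at h1
  exact h1

theorem HM.lap_sm_p {n : ℕ} {p : Fin n → V} (hp : Good M e p) (j : Fin n) :
    Lap H (sm M p) (p j) = 1 := by
  rw [hM.lap_sm p hp.even, Finset.sum_eq_single j]
  · rw [if_pos rfl]
  · intro i _ hi
    rw [if_neg]
    intro h
    exact hi (hp.inj h).symm
  · intro h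
    exact absurd (Finset.mem_univ j) h

theorem HM.lap_sm_0 {n : ℕ} {p : Fin n → V} (hp : Good M e p) {v : V} (hv : ∀ j, v ≠ p j) :
    Lap H (sm M p) v = 0 := by
  rw [hM.lap_sm p hp.even]
  exact Finset.sum_eq_zero fun i _ => by rw [if_neg (hv i)]

theorem HM.sm_e {n : ℕ} {p : Fin n → V} : sm M p e = 0 :=
  Finset.sum_eq_zero fun i _ => hM.h0 (p i)

theorem HM.word_zero {n : ℕ} {p : Fin n → V} (hp : Good M e p) (v : V) :
    wd H (sm M p) v = 0 ↔ sm M p v = 0 := by
  refine ⟨fun h => (lap_of_zero h).1, fun h => zero_of_lap h ?_⟩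
  apply hM.lap_sm_0 hp
  rintro j rfl
  have h1 : sm M p (p j) = 1 := hp.cl j
  rw [h] at h1
  exact zero_ne_one h1

theorem HM.word_zfree {n : ℕ} {p : Fin n → V} (hp : Good M e p) : ZFree (wd H (sm M p)) := by
  intro v hv
  have h1 := lap_of_z hv
  rw [(hM.word_zero hp v).2 h1.1] at hv
  exact absurd hv (by decide)

theorem HM.word_ne {n : ℕ} {p : Fin n → V} (hp : Good M e p) : wd H (sm M p) ≠ 0 := by
  intro h
  have h1 := (hM.word_zero hp (p ⟨0, hp.pos⟩)).1 (congrFun h _)
  have h2 : sm M p (p ⟨0, hp.pos⟩) = 1 := hp.cl _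
  rw [h1] at h2
  exact zero_ne_one h2

/-- a function whose Laplacian lives on the points of `p`, `y` and `e` -/
theorem HM.recf {n : ℕ} {p : Fin n → V} (hp : Good M e p) (f : V → ZMod 2) (he : f e = 0) (y : V)
    (c : ZMod 2) (hy : ∀ j, y ≠ p j) (hfy : Lap H f y = c)
    (hf : ∀ v, v ≠ y → (∀ j, v ≠ p j) → Lap H f v = 0) :
    (∀ x, f x = c * M y x + ∑ i, Lap H f (p i) * M (p i) x) ∧ c + ∑ i, Lap H f (p i) = 0 := by
  have hbig : ∀ F : V → ZMod 2, (∀ v, v ≠ y → (∀ j, v ≠ p j) → F v = 0) →
      ∑ v, F v = F y + ∑ i, F (p i) := by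
    intro F hF
    have h1 : ∑ v ∈ insert y (Finset.univ.image p), F v = ∑ v, F v := by
      apply Finset.sum_subset (Finset.subset_univ _)
      intro v _ hv
      rw [Finset.mem_insert, not_or, Finset.mem_image] at hv
      apply hF v hv.1
      intro j hj
      exact hv.2 ⟨j, Finset.mem_univ j, hj.symm⟩
    rw [← h1, Finset.sum_insert, Finset.sum_image]
    · intro i _ j _ h
      exact hp.inj h
    · rw [Finset.mem_image]
      rintro ⟨j, _, hj⟩
      exact hy j hj.symm
  refine ⟨fun x => ?_, ?_⟩
  · rw [recon hM.hs hM.h0 hM.hl f he x, hbig (fun v => Lap H f v * M v x), hfy]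
    intro v hv hvp
    rw [hf v hv hvp, zero_mul]
  · have h1 := sum_lap hM.hs f
    rw [hbig (fun v => Lap H f v) hf, hfy] at h1
    exact h1

/-- the word of a good family is irreducible -/
theorem HM.irr {B : Submodule (ZMod 2) (V → K)} (hH : IsMat B H) {n : ℕ} {p : Fin n → V}
    (hp : Good M e p) : Irr B (wd H (sm M p)) := by
  intro d hd hle
  have hw := eq_wd hH hd
  set f : V → ZMod 2 := fun v => (d v).1 with hfdef
  have hfe : f e = 0 := by
    show (d e).1 = 0
    rcases hle e with h | h
    · rw [h]; rfl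
    · rw [h]; exact hM.sm_e
  have hcase : ∀ v, (f v = 0 ∧ Lap H f v = 0) ∨
      (f v = sm M p v ∧ Lap H f v = Lap H (sm M p) v) := by
    intro v
    rcases hle v with h | h
    · left
      rw [hw] at h
      exact lap_of_zero h
    · right
      rw [hw] at h
      exact eq_of_wd h
  have h0 : ∀ v, (∀ j, v ≠ p j) → Lap H f v = 0 := by
    intro v hv
    rcases hcase v with h | h
    · exact h.2
    · rw [h.2, hM.lap_sm_0 hp hv]
  -- the sum over `V` reduces to the points
  have hbig : ∀ F : V → ZMod 2, (∀ v, (∀ j, v ≠ p j) → F v = 0) → ∑ v, F v = ∑ i, F (p i) := by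
    intro F hF
    have h1 : ∑ v ∈ Finset.univ.image p, F v = ∑ v, F v := by
      apply Finset.sum_subset (Finset.subset_univ _)
      intro v _ hv
      rw [Finset.mem_image] at hv
      apply hF v
      intro j hj
      exact hv ⟨j, Finset.mem_univ j, hj.symm⟩
    rw [← h1, Finset.sum_image]
    intro i _ j _ h
    exact hp.inj h
  have hrec : ∀ x, f x = ∑ i, Lap H f (p i) * M (p i) x := by
    intro x
    rw [recon hM.hs hM.h0 hM.hl f hfe x, hbig (fun v => Lap H f v * M v x)]
    intro v hv
    rw [h0 v hv, zero_mul]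
  have hsum : ∑ i, Lap H f (p i) = 0 := by
    have h1 := sum_lap hM.hs f
    rw [hbig (fun v => Lap H f v) h0] at h1
    exact h1
  have hval : ∀ j, f (p j) = Lap H f (p j) := by
    intro j
    rcases hcase (p j) with h | h
    · rw [h.1, h.2]
    · rw [h.1, h.2, hM.lap_sm_p hp]
      exact hp.cl j
  rcases hp.irr (fun i => Lap H f (p i)) hsum (fun j => by
      rw [← hrec (p j)]
      exact hval j) with h | h
  · left
    rw [hw]
    funext v
    apply zero_of_lap
    · rw [hrec]
      exact Finset.sum_eq_zero fun i _ => by rw [h i, zero_mul]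
    · by_cases hv : ∀ j, v ≠ p j
      · exact h0 v hv
      · push Not at hv
        obtain ⟨j, rfl⟩ := hv
        exact h j
  · right
    rw [hw]
    congr 1
    funext v
    rw [hrec]
    unfold sm
    exact Finset.sum_congr rfl fun i _ => by rw [h i, one_mul]

/-- a splitting of the word of a good family -/
theorem HM.half_of_splits {B : Submodule (ZMod 2) (V → K)} (hH : IsMat B H) {n : ℕ}
    {p : Fin n → V} (hp : Good M e p) {g : V} (h : Splits B (wd H (sm M p)) g) :
    Half M p ∅ g := by
  obtain ⟨c₁, hc₁, c₂, hc₂, hs, hg1, hg2, hd⟩ := h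
  have e1 := eq_wd hH hc₁
  have e2 := eq_wd hH hc₂
  set f₁ : V → ZMod 2 := fun v => (c₁ v).1 with hf1
  set f₂ : V → ZMod 2 := fun v => (c₂ v).1 with hf2
  rw [e1] at hg1
  rw [e2] at hg2
  have hd' : ∀ v, v ≠ g → wd H f₁ v = 0 ∨ wd H f₂ v = 0 := by
    intro v hv
    rcases hd v hv with h | h
    · left; rw [← e1]; exact h
    · right; rw [← e2]; exact h
  have hadd : f₁ + f₂ = sm M p := by
    funext v
    exact congrArg Prod.fst (congrFun hs v)
  have hsum : ∀ v, f₁ v + f₂ v = sm M p v := fun v => congrFun hadd v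
  have hlsum : ∀ v, Lap H f₁ v + Lap H f₂ v = Lap H (sm M p) v := by
    intro v
    rw [← hadd, lap_add]
  have hgp : ∀ j, g ≠ p j := by
    intro j hj
    have h1 := hsum g
    rw [(lap_of_z hg1).1, (lap_of_z hg2).1, hj] at h1
    have h2 : sm M p (p j) = 1 := hp.cl j
    rw [← h1] at h2
    exact absurd h2 (by decide)
  have hout : ∀ v, v ≠ g → (∀ j, v ≠ p j) → Lap H f₁ v = 0 := by
    intro v hv hvp
    rcases hd' v hv with h1 | h1
    · exact (lap_of_zero h1).2
    · have h2 := hlsum v
      rw [(lap_of_zero h1).2, hM.lap_sm_0 hp hvp, add_zero] at h2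
      exact h2
  have hfe : f₁ e = 0 := by
    by_cases hge : e = g
    · rw [hge]
      exact (lap_of_z hg1).1
    · rcases hd' e hge with h1 | h1
      · exact (lap_of_zero h1).1
      · have h2 := hsum e
        rw [(lap_of_zero h1).1, hM.sm_e, add_zero] at h2
        exact h2
  obtain ⟨r1, r2⟩ := hM.recf hp f₁ hfe g 1 hgp (lap_of_z hg1).2 hout
  refine ⟨fun i => Lap H f₁ (p i), ?_, ?_, ?_⟩
  · revert r2
    generalize (∑ i, Lap H f₁ (p i)) = A
    revert A
    decide
  · intro j
    have h1 := r1 (p j)
    rw [one_mul] at h1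
    have h2 : sm M p (p j) = 1 := hp.cl j
    have h3 := hsum (p j)
    have h4 := hlsum (p j)
    rw [hM.lap_sm_p hp] at h4
    rcases hd' (p j) (hgp j).symm with h5 | h5
    · rw [(lap_of_zero h5).1] at h1
      beta_reduce
      rw [(lap_of_zero h5).2, zero_add]
      exact (CharTwo.add_eq_zero.1 h1.symm)
    · rw [(lap_of_zero h5).1, add_zero, h2] at h3
      rw [(lap_of_zero h5).2, add_zero] at h4
      rw [h3] at h1
      beta_reduce
      rw [h4]
      revert h1
      generalize (∑ i, Lap H f₁ (p i) * M (p i) (p j)) = A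
      generalize M g (p j) = B
      revert A B
      decide
  · intro y _ hy
    have h1 := r1 y
    rw [one_mul] at h1
    have h2 : f₁ y = 0 := by
      by_cases hyg : y = g
      · rw [hyg]
        exact (lap_of_z hg1).1
      · rcases hd' y hyg with h3 | h3
        · exact (lap_of_zero h3).1
        · have h4 := hsum y
          have h5 : sm M p y = 0 := hy
          rw [(lap_of_zero h3).1, h5, add_zero] at h4
          exact h4
    rw [h2] at h1
    exact (CharTwo.add_eq_zero.1 h1.symm)

/-- own points are halves -/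
theorem HM.own {B : Submodule (ZMod 2) (V → K)} {S : (V → K) → Finset V → Prop}
    (hH : IsMat B H) (hS : RSides B e S) {n : ℕ} {p : Fin n → V} (hp : Good M e p)
    {Y : Finset V} (hY : S (wd H (sm M p)) Y) {y : V} (hy : y ∈ Y) : Half M p (Y : Set V) y := by
  have hz : ∀ v ∈ Y, sm M p v = 0 := fun v hv => (lap_of_zero (hS.zero _ _ hY v hv)).1
  have hyp : ∀ v ∈ Y, ∀ j, v ≠ p j := by
    rintro v hv j rfl
    have h1 := hz _ hv
    have h2 : sm M p (p j) = 1 := hp.cl j
    rw [h1] at h2
    exact zero_ne_one h2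
  have hye : ∀ v ∈ Y, v ≠ e := by
    rintro v hv rfl
    exact hS.root _ _ hY hv
  obtain ⟨c, α, hα⟩ := hp.sol y (hz y hy)
  have hone : ∀ v, Lap H (fun _ => (1 : ZMod 2)) v = 0 := by
    intro v
    unfold Lap
    refine Finset.sum_eq_zero fun w _ => ?_
    rw [show (1 : ZMod 2) + 1 = 0 from by decide, mul_zero]
  have hconst : ∀ v, Lap H (fun _ => c) v = 0 := by
    intro v
    rcases two c with h | h
    · rw [h]; unfold Lap; simp
    · rw [h]; exact hone v
  -- the word `k`
  set kf' : V → ZMod 2 := fun x => M y x + c + ∑ i, α i * M (p i) x with hkf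
  have hkdec : kf' = (M y + fun _ => c) + fun x => ∑ i, α i * M (p i) x := by
    funext x
    rfl
  have hklap : ∀ v, v ≠ e → Lap H kf' v = (if v = y then 1 else 0) +
      ∑ i, α i * (if v = p i then 1 else 0) := by
    intro v hv
    rw [hkdec, lap_add, lap_add, hconst, add_zero, hM.hl, if_neg hv, add_zero, lap_sum]
    congr 1
    refine Finset.sum_congr rfl fun i _ => ?_
    rw [hM.hl, if_neg hv, add_zero]
  have hkp : ∀ j, Lap H kf' (p j) = α j := by
    intro j
    rw [hklap _ (hp.ne j), if_neg (fun h => hyp y hy j h.symm), zero_add, Finset.sum_eq_single j]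
    · rw [if_pos rfl, mul_one]
    · intro i _ hi
      rw [if_neg, mul_zero]
      intro h
      exact hi (hp.inj h).symm
    · intro h
      exact absurd (Finset.mem_univ j) h
  have hk0 : ∀ v, v ≠ e → v ≠ y → (∀ j, v ≠ p j) → Lap H kf' v = 0 := by
    intro v hv hvy hvp
    rw [hklap v hv, if_neg hvy, zero_add]
    exact Finset.sum_eq_zero fun i _ => by rw [if_neg (hvp i), mul_zero]
  have hue : wd H (sm M p) e = 0 := (hM.word_zero hp e).2 hM.sm_e
  obtain ⟨k', hk', h1, h2, h3⟩ := hS.part _ _ hY (wd H kf') (wd_mem hH _) (by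
    intro v hv
    have hve : v ≠ e := by
      rintro rfl
      exact hv hue
    have hvy : v ≠ y := by
      rintro rfl
      exact hv (hS.zero _ _ hY _ hy)
    have hsv : sm M p v = 1 := by
      rcases two (sm M p v) with h | h
      · exact absurd ((hM.word_zero hp v).2 h) hv
      · exact h
    by_cases hvp : ∀ j, v ≠ p j
    · rcases two (kf' v) with h | h
      · left
        exact zero_of_lap h (hk0 v hve hvy hvp)
      · right
        exact wd_eq (h.trans hsv.symm) (by rw [hk0 v hve hvy hvp, hM.lap_sm_0 hp hvp])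
    · push Not at hvp
      obtain ⟨j, rfl⟩ := hvp
      have h4 : kf' (p j) = α j := hα j
      rcases two (α j) with h | h
      · left
        exact zero_of_lap (h4.trans h) ((hkp j).trans h)
      · right
        exact wd_eq ((h4.trans h).trans hsv.symm) (by rw [hkp j, h, hM.lap_sm_p hp]))
  have hw := eq_wd hH hk'
  set f : V → ZMod 2 := fun v => (k' v).1 with hfdef
  have heY : e ∉ Y := hS.root _ _ hY
  have hfe : f e = 0 := by
    show (k' e).1 = 0
    rw [h2 e hue heY]
    rfl
  have hcase : ∀ v, (v ∈ Y ∧ f v = kf' v ∧ Lap H f v = Lap H kf' v) ∨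
      (v ∉ Y ∧ sm M p v = 0 ∧ f v = 0 ∧ Lap H f v = 0) ∨
      (v ∉ Y ∧ sm M p v = 1 ∧ ((f v = 0 ∧ Lap H f v = 0) ∨
        (f v = 1 ∧ Lap H f v = Lap H (sm M p) v))) := by
    intro v
    by_cases hv : v ∈ Y
    · left
      have h4 : wd H f v = wd H kf' v := by rw [← hw]; exact h1 v hv
      exact ⟨hv, eq_of_wd h4⟩
    · right
      rcases two (sm M p v) with h | h
      · left
        have h4 : wd H f v = 0 := by rw [← hw]; exact h2 v ((hM.word_zero hp v).2 h) hv
        exact ⟨hv, h, lap_of_zero h4⟩
      · right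
        refine ⟨hv, h, ?_⟩
        have h5 : wd H (sm M p) v ≠ 0 := by
          intro h6
          rw [(hM.word_zero hp v).1 h6] at h
          exact zero_ne_one h
        rcases h3 v h5 with h4 | h4
        · left
          have h6 : wd H f v = 0 := by rw [← hw]; exact h4
          exact lap_of_zero h6
        · right
          have h6 : wd H f v = wd H (sm M p) v := by rw [← hw]; exact h4
          obtain ⟨h7, h8⟩ := eq_of_wd h6
          exact ⟨h7.trans h, h8⟩
  have hpY : ∀ j, p j ∉ Y := fun j hj => hyp _ hj j rfl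
  have hfy : Lap H f y = 1 := by
    rcases hcase y with h | h | h
    · rw [h.2.2, hklap y (hye y hy), if_pos rfl]
      rw [Finset.sum_eq_zero fun i _ => by rw [if_neg (hyp y hy i), mul_zero], add_zero]
    · exact absurd hy h.1
    · exact absurd hy h.1
  have hf0 : ∀ v, v ≠ y → (∀ j, v ≠ p j) → Lap H f v = 0 := by
    intro v hvy hvp
    rcases hcase v with h | h | h
    · rw [h.2.2]
      exact hk0 v (hye v h.1) hvy hvp
    · exact h.2.2.2
    · rcases h.2.2 with h4 | h4
      · exact h4.2
      · rw [h4.2, hM.lap_sm_0 hp hvp]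
  obtain ⟨r1, r2⟩ := hM.recf hp f hfe y 1 (hyp y hy) hfy hf0
  refine ⟨fun i => Lap H f (p i), ?_, ?_, ?_⟩
  · revert r2
    generalize (∑ i, Lap H f (p i)) = A
    revert A
    decide
  · intro j
    have h4 := r1 (p j)
    rw [one_mul] at h4
    have h5 : f (p j) = Lap H f (p j) := by
      rcases hcase (p j) with h | h | h
      · exact absurd h.1 (hpY j)
      · have h6 : sm M p (p j) = 1 := hp.cl j
        rw [h.2.1] at h6
        exact absurd h6 zero_ne_one
      · rcases h.2.2 with h6 | h6
        · rw [h6.1, h6.2]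
        · rw [h6.1, h6.2, hM.lap_sm_p hp]
    rw [h5] at h4
    beta_reduce
    revert h4
    generalize (∑ i, Lap H f (p i) * M (p i) (p j)) = A
    generalize M y (p j) = B
    generalize Lap H f (p j) = C
    revert A B C
    decide
  · intro x hx hsx
    have h4 := r1 x
    rw [one_mul] at h4
    have h5 : f x = 0 := by
      rcases hcase x with h | h | h
      · exact absurd h.1 (by simpa using hx)
      · exact h.2.2.1
      · have h6 : sm M p x = 0 := hsx
        rw [h6] at h
        exact absurd h.2.1 zero_ne_one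
    rw [h5] at h4
    exact (CharTwo.add_eq_zero.1 h4.symm)

/-- a good family has a splitting or an own set -/
theorem HM.ex {B : Submodule (ZMod 2) (V → K)} {S : (V → K) → Finset V → Prop}
    (hH : IsMat B H) (hS : RSides B e S) {n : ℕ} {p : Fin n → V} (hp : Good M e p) :
    (∃ g, Half M p ∅ g) ∨ ∃ Y : Set V, Y.Nonempty ∧ ∃ Y' : Finset V, (Y' : Set V) = Y ∧
      S (wd H (sm M p)) Y' := by
  rcases hS.ex (wd H (sm M p)) (wd_mem hH _) (hM.word_zfree hp)
    ((hM.word_zero hp e).2 hM.sm_e) (hM.word_ne hp) (hM.irr hH hp) with ⟨g, hg⟩ | ⟨Y, hne, hY⟩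
  · exact Or.inl ⟨g, hM.half_of_splits hH hp hg⟩
  · exact Or.inr ⟨(Y : Set V), hne, Y, rfl, hY⟩

/-- nested families -/
theorem HM.nest {B : Submodule (ZMod 2) (V → K)} {S : (V → K) → Finset V → Prop}
    (hH : IsMat B H) (hS : RSides B e S) {n m : ℕ} {p : Fin n → V} (hp : Good M e p)
    {q : Fin m → V} (hq : Good M e q) {Y : Finset V} (hY : S (wd H (sm M p)) Y)
    (h1 : ∀ v, v ∉ Y → sm M p v = 0 → sm M q v = 0)
    (h2 : ∀ v, sm M p v = 1 → sm M q v = 1 → ((∃ j, v = q j) ↔ ∃ i, v = p i)) :
    (∃ g, Half M q ∅ g) ∨ ∃ Z ⊆ (Y : Set V), Z.Nonempty ∧ ∃ Y' : Finset V, (Y' : Set V) = Z ∧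
      S (wd H (sm M q)) Y' := by
  rcases hS.mono _ _ hY (hM.irr hH hp) (wd H (sm M q)) (wd_mem hH _) (hM.word_zfree hq)
    (hM.word_ne hq) (hM.irr hH hq) (by
      intro v hv
      rw [Ne, hM.word_zero hp] at hv
      have hpv : sm M p v = 1 := (two _).resolve_left hv
      rcases two (sm M q v) with h | h
      · left
        exact (hM.word_zero hq v).2 h
      · right
        apply wd_eq (h.trans hpv.symm)
        have h3 := h2 v hpv h
        by_cases hvq : ∃ j, v = q j
        · obtain ⟨i, hi⟩ := h3.1 hvq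
          obtain ⟨j, hj⟩ := hvq
          have e1 : Lap H (sm M q) v = 1 := by rw [hj]; exact hM.lap_sm_p hq j
          have e2 : Lap H (sm M p) v = 1 := by rw [hi]; exact hM.lap_sm_p hp i
          rw [e1, e2]
        · have hvp : ¬ ∃ i, v = p i := fun h4 => hvq (h3.2 h4)
          rw [hM.lap_sm_0 hq (fun j hj => hvq ⟨j, hj⟩), hM.lap_sm_0 hp (fun j hj => hvp ⟨j, hj⟩)])
    (by
      intro v hv hvY
      rw [hM.word_zero hp] at hv
      exact (hM.word_zero hq v).2 (h1 v hvY hv)) with ⟨g, hg⟩ | ⟨Y', hsub, hne, hS'⟩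
  · exact Or.inl ⟨g, hM.half_of_splits hH hq hg⟩
  · exact Or.inr ⟨(Y' : Set V), by exact_mod_cast hsub, hne, Y', rfl, hS'⟩

theorem HM.good2 {a b : V} (h : CP M a b) : Good M e ![a, b] := by
  have hsym := m_sym hM.hs hM.h0 hM.hl
  obtain ⟨hab, hne⟩ := h
  have hmab := (ne_iff' _ _).1 hne
  have hba : M b a = M a a + 1 := by rw [hsym, hmab]
  have nab : a ≠ b := by
    rintro rfl
    exact hne rfl
  have hae : a ≠ e := by
    rintro rfl
    apply hne
    rw [hsym a b, hM.h0, hM.h0]
  have hbe : b ≠ e := by
    rintro rfl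
    apply hne
    rw [hM.h0, hab, hM.h0]
  refine ⟨by decide, by norm_num, ?_, ?_, ?_, ?_, ?_⟩
  · intro i j hij
    fin_cases i <;> fin_cases j
    · rfl
    · exact absurd hij nab
    · exact absurd hij.symm nab
    · rfl
  · intro i
    fin_cases i
    · exact hae
    · exact hbe
  · intro j
    rw [Fin.sum_univ_two]
    fin_cases j
    · change M a a + M b a = 1
      rw [hba]
      generalize M a a = B
      revert B
      decide
    · change M a b + M b b = 1
      rw [← hab, hmab]
      generalize M a a = B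
      revert B
      decide
  · intro α h1 _
    rw [Fin.sum_univ_two] at h1
    have h3 : α 1 = α 0 := by
      revert h1
      generalize α 0 = A
      generalize α 1 = B
      revert A B
      decide
    rcases two (α 0) with h | h
    · left
      intro i
      fin_cases i
      · exact h
      · exact h3.trans h
    · right
      intro i
      fin_cases i
      · exact h
      · exact h3.trans h
  · intro y hy
    rw [Fin.sum_univ_two] at hy
    change M a y + M b y = 0 at hy
    rw [hsym a y, hsym b y] at hy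
    refine ⟨M y a * M a a, ![M y a * (M a a + 1), 0], ?_⟩
    intro j
    rw [Fin.sum_univ_two]
    fin_cases j
    · change M y a + M y a * M a a + (M y a * (M a a + 1) * M a a + 0 * M b a) =
        M y a * (M a a + 1)
      generalize M a a = B
      generalize M y a = C
      generalize M b a = D
      revert B C D
      decide
    · change M y b + M y a * M a a + (M y a * (M a a + 1) * M a b + 0 * M b b) = 0
      rw [hmab]
      revert hy
      generalize M a a = B
      generalize M y a = C
      generalize M y b = D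
      generalize M b b = E
      revert B C D E
      decide

theorem HM.good4 {a b c d : V} (h : CQ M a b c d) : Good M e ![a, b, c, d] := by
  have hsym := m_sym hM.hs hM.h0 hM.hl
  obtain ⟨⟨hab, hbc, hcd, hac, had, hbd⟩, ha, hb, hcc, hd⟩ := h
  have he : ∀ x, M e x = 0 := fun x => by rw [hsym, hM.h0]
  have hba : M b a = 1 := by rw [hsym, hab]
  have hcb : M c b = 1 := by rw [hsym, hbc]
  have hdc : M d c = 1 := by rw [hsym, hcd]
  have hca : M c a = 0 := by rw [hsym, hac]
  have hda : M d a = 0 := by rw [hsym, had]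
  have hdb : M d b = 0 := by rw [hsym, hbd]
  have h01 : (0 : ZMod 2) ≠ 1 := by decide
  have nab : a ≠ b := by rintro rfl; exact h01 (ha.symm.trans hb)
  have nac : a ≠ c := by rintro rfl; exact h01 (ha.symm.trans hcc)
  have nad : a ≠ d := by rintro rfl; exact h01 (hdb.symm.trans hab)
  have nbc : b ≠ c := by rintro rfl; exact h01 (hbd.symm.trans hcd)
  have nbd : b ≠ d := by rintro rfl; exact h01 (hd.symm.trans hb)
  have ncd : c ≠ d := by rintro rfl; exact h01 (hd.symm.trans hcc)
  refine ⟨by decide, by norm_num, ?_, ?_, ?_, ?_, ?_⟩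
  · intro i j hij
    fin_cases i <;> fin_cases j <;> first
      | rfl
      | exact absurd hij nab
      | exact absurd hij nac
      | exact absurd hij nad
      | exact absurd hij nbc
      | exact absurd hij nbd
      | exact absurd hij ncd
      | exact absurd hij.symm nab
      | exact absurd hij.symm nac
      | exact absurd hij.symm nad
      | exact absurd hij.symm nbc
      | exact absurd hij.symm nbd
      | exact absurd hij.symm ncd
  · intro i
    fin_cases i
    · change a ≠ e
      rintro rfl
      exact h01 ((he b).symm.trans hab)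
    · change b ≠ e
      rintro rfl
      exact h01 ((he c).symm.trans hbc)
    · change c ≠ e
      rintro rfl
      exact h01 ((he d).symm.trans hcd)
    · change d ≠ e
      rintro rfl
      exact h01 ((he c).symm.trans hdc)
  · intro j
    rw [Fin.sum_univ_four]
    fin_cases j
    · change M a a + M b a + M c a + M d a = 1
      rw [ha, hba, hca, hda]
      decide
    · change M a b + M b b + M c b + M d b = 1
      rw [hab, hb, hcb, hdb]
      decide
    · change M a c + M b c + M c c + M d c = 1
      rw [hac, hbc, hcc, hdc]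
      decide
    · change M a d + M b d + M c d + M d d = 1
      rw [had, hbd, hcd, hd]
      decide
  · intro α _ h2
    have h2a := h2 0
    have h2b := h2 1
    have h2c := h2 2
    rw [Fin.sum_univ_four] at h2a h2b h2c
    change α 0 * M a a + α 1 * M b a + α 2 * M c a + α 3 * M d a = α 0 at h2a
    change α 0 * M a b + α 1 * M b b + α 2 * M c b + α 3 * M d b = α 1 at h2b
    change α 0 * M a c + α 1 * M b c + α 2 * M c c + α 3 * M d c = α 2 at h2c
    rw [ha, hba, hca, hda] at h2a
    rw [hab, hb, hcb, hdb] at h2b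
    rw [hac, hbc, hcc, hdc] at h2c
    have k1 : α 1 = α 0 ∧ α 2 = α 0 ∧ α 3 = α 0 := by
      revert h2a h2b h2c
      generalize α 0 = A
      generalize α 1 = B
      generalize α 2 = C
      generalize α 3 = D
      revert A B C D
      decide
    rcases two (α 0) with h | h
    · left
      intro i
      fin_cases i
      · exact h
      · exact k1.1.trans h
      · exact k1.2.1.trans h
      · exact k1.2.2.trans h
    · right
      intro i
      fin_cases i
      · exact h
      · exact k1.1.trans h
      · exact k1.2.1.trans h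
      · exact k1.2.2.trans h
  · intro y hy
    rw [Fin.sum_univ_four] at hy
    change M a y + M b y + M c y + M d y = 0 at hy
    rw [hsym a y, hsym b y, hsym c y, hsym d y] at hy
    refine ⟨0, ![0, M y a, M y b, M y c + M y a], ?_⟩
    intro j
    rw [Fin.sum_univ_four]
    fin_cases j
    · change M y a + 0 + (0 * M a a + M y a * M b a + M y b * M c a + (M y c + M y a) * M d a) = 0
      rw [ha, hba, hca, hda]
      generalize M y a = A
      generalize M y b = B
      generalize M y c = C
      revert A B C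
      decide
    · change M y b + 0 + (0 * M a b + M y a * M b b + M y b * M c b + (M y c + M y a) * M d b) =
        M y a
      rw [hab, hb, hcb, hdb]
      generalize M y a = A
      generalize M y b = B
      generalize M y c = C
      revert A B C
      decide
    · change M y c + 0 + (0 * M a c + M y a * M b c + M y b * M c c + (M y c + M y a) * M d c) =
        M y b
      rw [hac, hbc, hcc, hdc]
      generalize M y a = A
      generalize M y b = B
      generalize M y c = C
      revert A B C
      decide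
    · change M y d + 0 + (0 * M a d + M y a * M b d + M y b * M c d + (M y c + M y a) * M d d) =
        M y c + M y a
      rw [had, hbd, hcd, hd]
      revert hy
      generalize M y a = A
      generalize M y b = B
      generalize M y c = C
      generalize M y d = D
      revert A B C D
      decide

/-- **the matrix statement from the sides** -/
theorem HM.main {B : Submodule (ZMod 2) (V → K)} {S : (V → K) → Finset V → Prop}
    (hH : IsMat B H) (hS : RSides B e S) : Pairs M ∧ P4Split M := by
  have hsym := m_sym hM.hs hM.h0 hM.hl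
  refine own_rel hsym
    (fun a b Y => ∃ Y' : Finset V, (Y' : Set V) = Y ∧ S (wd H (sm M ![a, b])) Y')
    (fun a b c d Y => ∃ Y' : Finset V, (Y' : Set V) = Y ∧ S (wd H (sm M ![a, b, c, d])) Y')
    ?_ ?_ ?_ ?_ ?_ ?_
  · intro a b h
    exact hM.ex hH hS (hM.good2 h)
  · rintro a b _ h ⟨Y, rfl, hY⟩ y hy
    exact hM.own hH hS (hM.good2 h) hY hy
  · intro a b c d h
    exact hM.ex hH hS (hM.good4 h)
  · rintro a b c d _ h ⟨Y, rfl, hY⟩ y hy
    exact hM.own hH hS (hM.good4 h) hY hy
  · rintro a b _ h ⟨Y, rfl, hY⟩ x y hxy hx hy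
    have hP := hM.good2 h
    have hY2 : ∀ w ∈ Y, M w a = M a a + 1 ∧ M w b = M a a + 1 ∧
        ∀ v, v ∉ Y → M a v = M b v → M w v = M a v := by
      intro w hw
      exact half2 hsym h (hM.own hH hS hP hY hw)
    have hsp : ∀ v, sm M ![a, b] v = M a v + M b v := fun v => by
      show ∑ i, M (![a, b] i) v = _
      rw [Fin.sum_univ_two]
      rfl
    have hsq : ∀ v, sm M ![x, y] v = M x v + M y v := fun v => by
      show ∑ i, M (![x, y] i) v = _
      rw [Fin.sum_univ_two]
      rfl
    have hmab := (ne_iff' _ _).1 h.2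
    have hz : ∀ v ∈ Y, sm M ![a, b] v = 0 := fun v hv => (lap_of_zero (hS.zero _ _ hY v hv)).1
    have hxY : x ∈ Y := hx
    refine hM.nest hH hS hP (hM.good2 hxy) hY ?_ ?_
    · intro v hv h0
      rw [hsp] at h0
      have h3 : M a v = M b v := CharTwo.add_eq_zero.1 h0
      rw [hsq, (hY2 x hxY).2.2 v hv h3]
      rcases hy with hy | rfl
      · rw [(hY2 y hy).2.2 v hv h3]
        exact CharTwo.add_self_eq_zero _
      · exact CharTwo.add_self_eq_zero _
    · intro v hv1 hv2
      have hvx : v ≠ x := by
        rintro rfl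
        rw [hz v hxY] at hv1
        exact zero_ne_one hv1
      have hvb : v ≠ b := by
        rintro rfl
        rw [hsq, (hY2 x hxY).2.1] at hv2
        rcases hy with hy | rfl
        · rw [(hY2 y hy).2.1] at hv2
          rw [CharTwo.add_self_eq_zero] at hv2
          exact zero_ne_one hv2
        · rw [hmab, CharTwo.add_self_eq_zero] at hv2
          exact zero_ne_one hv2
      constructor
      · rintro ⟨j, hj⟩
        fin_cases j
        · exact absurd hj hvx
        · change v = y at hj
          rcases hy with hy | hy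
          · rw [hj, hz y hy] at hv1
            exact absurd hv1 zero_ne_one
          · exact ⟨0, hj.trans hy⟩
      · rintro ⟨i, hi⟩
        fin_cases i
        · change v = a at hi
          rcases hy with hy | hy
          · rw [hi, hsq, (hY2 x hxY).1, (hY2 y hy).1, CharTwo.add_self_eq_zero] at hv2
            exact absurd hv2 zero_ne_one
          · exact ⟨1, hi.trans hy.symm⟩
        · exact absurd hi hvb
  · rintro a b _ h ⟨Y, rfl, hY⟩ p q r s hq4 hp hq hr hs'
    have hP := hM.good2 h
    have hY2 : ∀ w ∈ Y, M w a = M a a + 1 ∧ M w b = M a a + 1 ∧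
        ∀ v, v ∉ Y → M a v = M b v → M w v = M a v := by
      intro w hw
      exact half2 hsym h (hM.own hH hS hP hY hw)
    have hsp : ∀ v, sm M ![a, b] v = M a v + M b v := fun v => by
      show ∑ i, M (![a, b] i) v = _
      rw [Fin.sum_univ_two]
      rfl
    have hsq : ∀ v, sm M ![p, q, r, s] v = M p v + M q v + M r v + M s v := fun v => by
      show ∑ i, M (![p, q, r, s] i) v = _
      rw [Fin.sum_univ_four]
      rfl
    have hz : ∀ v ∈ Y, sm M ![a, b] v = 0 := fun v hv => (lap_of_zero (hS.zero _ _ hY v hv)).1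
    have h4 : ∀ A : ZMod 2, A + A + A + A = 0 := by decide
    refine hM.nest hH hS hP (hM.good4 hq4) hY ?_ ?_
    · intro v hv h0
      rw [hsp] at h0
      have h3 : M a v = M b v := CharTwo.add_eq_zero.1 h0
      rw [hsq, (hY2 p hp).2.2 v hv h3, (hY2 q hq).2.2 v hv h3, (hY2 r hr).2.2 v hv h3,
        (hY2 s hs').2.2 v hv h3]
      exact h4 _
    · intro v hv1 hv2
      constructor
      · rintro ⟨j, hj⟩
        have hvY : v ∈ Y := by
          rw [hj]
          fin_cases j
          · exact hp
          · exact hq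
          · exact hr
          · exact hs'
        rw [hz v hvY] at hv1
        exact absurd hv1 zero_ne_one
      · rintro ⟨i, hi⟩
        exfalso
        fin_cases i
        · change v = a at hi
          rw [hi, hsq, (hY2 p hp).1, (hY2 q hq).1, (hY2 r hr).1, (hY2 s hs').1, h4] at hv2
          exact zero_ne_one hv2
        · change v = b at hi
          rw [hi, hsq, (hY2 p hp).2.1, (hY2 q hq).2.1, (hY2 r hr).2.1, (hY2 s hs').2.1, h4] at hv2
          exact zero_ne_one hv2

end

/-- **the code side for codes with sides** -/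
theorem side_main {B : Submodule (ZMod 2) (V → K)} {S : (V → K) → Finset V → Prop}
    (hH : IsMat B H) (hS : RSides B e S) :
    ∃ M : V → V → ZMod 2, (∀ x y, M x y = M y x) ∧ (∀ x, M e x = 0) ∧
      (∀ u, u ≠ e → ∀ v, (∑ w, H u w * (M u v + M w v)) = if u = v then 1 else 0) ∧
      Pairs M ∧ P4Split M := by
  obtain ⟨M, h0, hl⟩ := exists_inv' (e := e) hH.sym (kernel hH hS)
  have hM : HM H e M := ⟨hH.sym, h0, hl⟩
  have hsym := m_sym hH.sym h0 hl
  refine ⟨M, hsym, fun x => by rw [hsym, h0], ?_, hM.main hH hS⟩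
  intro u hu v
  have h1 := hl v u
  rw [if_neg hu, add_zero] at h1
  rw [← h1]
  unfold Lap
  refine Finset.sum_congr rfl fun w _ => ?_
  rw [hsym u v, hsym w v]

end Pool.Agent.H6.FQ
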