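import Pool.Agent.H77.Q.Defs
import Pool.Agent.H6.P4.Side

set_option autoImplicit false

/-!
The kernel of the reduced Laplacian of a rooted code with sides is zero (MP_a46c6f_co, full Q1).
-/

namespace Pool.Agent.H6.FQ

open Pool.Agent.H98.Code Pool.Agent.H17.TR Pool.Agent.H6.P4 Pool.Agent.H77.Q

variable {V : Type} [Fintype V] [DecidableEq V]
variable {H : V → V → ZMod 2} {e : V}

theorem wd_eq {f f' : V → ZMod 2} {v : V} (h : f v = f' v) (h' : Lap H f v = Lap H f' v) :
    wd H f v = wd H f' v := by
  have h1 := lap_wd H f v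
  have h2 := lap_wd H f' v
  refine Prod.ext h ?_
  rw [h1, h2] at h'
  have h3 : (wd H f v).1 = (wd H f' v).1 := h
  rw [h3] at h'
  exact add_left_cancel h'

theorem eq_of_wd {f f' : V → ZMod 2} {v : V} (h : wd H f v = wd H f' v) :
    f v = f' v ∧ Lap H f v = Lap H f' v :=
  ⟨congrArg Prod.fst h, by rw [lap_wd, lap_wd, h]⟩

/-- kernel functions -/
def N (H : V → V → ZMod 2) (e : V) (f : V → ZMod 2) : Prop := f e = 0 ∧ ∀ v, Lap H f v = 0

theorem N.add {f g : V → ZMod 2} (hf : N H e f) (hg : N H e g) : N H e (f + g) :=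
  ⟨by rw [Pi.add_apply, hf.1, hg.1, add_zero], fun v => by rw [lap_add, hf.2, hg.2, add_zero]⟩

theorem two (a : ZMod 2) : a = 0 ∨ a = 1 := by revert a; decide

theorem N.of_le {B : Submodule (ZMod 2) (V → K)} (hH : IsMat B H) {k : V → ZMod 2}
    (hk : N H e k) {d : V → K} (hd : d ∈ B) (h : ∀ v, d v = 0 ∨ d v = wd H k v) :
    N H e (fun v => (d v).1) := by
  have hw := eq_wd hH hd
  refine ⟨?_, fun v => ?_⟩
  · show (d e).1 = 0
    rcases h e with h1 | h1
    · rw [h1]; rfl
    · rw [h1]; exact hk.1
  · rcases h v with h1 | h1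
    · have h2 : wd H (fun v => (d v).1) v = 0 := by rw [← hw]; exact h1
      exact (lap_of_zero h2).2
    · have h2 : wd H (fun v => (d v).1) v = wd H k v := by rw [← hw]; exact h1
      rw [(eq_of_wd h2).2, hk.2]

/-- an irreducible kernel word through a given point -/
theorem kmin {B : Submodule (ZMod 2) (V → K)} (hH : IsMat B H) (y : V) :
    ∀ (m : ℕ) (f : V → ZMod 2), (Finset.univ.filter (fun v => f v ≠ 0)).card = m → N H e f →
      f y ≠ 0 → ∃ k, N H e k ∧ k y ≠ 0 ∧ (∀ v, k v ≠ 0 → f v ≠ 0) ∧ Irr B (wd H k) := by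
  intro m
  induction m using Nat.strong_induction_on with
  | _ m ih =>
  intro f hm hf hy
  by_cases hI : Irr B (wd H f)
  · exact ⟨f, hf, hy, fun v h => h, hI⟩
  · unfold Irr at hI
    push Not at hI
    obtain ⟨d, hd, hle, hd0, hdf⟩ := hI
    have hw := eq_wd hH hd
    set g : V → ZMod 2 := fun v => (d v).1 with hg
    have hgN : N H e g := N.of_le hH hf hd hle
    have hgf : ∀ v, g v ≠ 0 → f v = g v := by
      intro v hv
      rcases hle v with h1 | h1
      · exact absurd (congrArg Prod.fst h1) hv
      · exact (congrArg Prod.fst h1).symm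
    have hg0 : ∃ v, g v ≠ 0 := by
      by_contra hcon
      push Not at hcon
      apply hd0
      rw [hw]
      have : g = 0 := funext hcon
      rw [this]
      funext v
      exact zero_of_lap rfl (by unfold Lap; simp)
    have hgne : ∃ v, f v ≠ 0 ∧ g v = 0 := by
      by_contra hcon
      push Not at hcon
      apply hdf
      rw [hw]
      have : g = f := by
        funext v
        by_cases hv : f v = 0
        · by_contra h2
          have h3 : g v ≠ 0 := by rw [hv] at h2; exact h2
          exact h2 (hgf v h3).symm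
        · exact (hgf v (hcon v hv)).symm
      rw [this]
    by_cases hgy : g y = 0
    · -- use `f + g`
      have hN := hf.add hgN
      have h1 : (f + g) y ≠ 0 := by rw [Pi.add_apply, hgy, add_zero]; exact hy
      have hsub : ∀ v, (f + g) v ≠ 0 → f v ≠ 0 := by
        intro v hv hf0
        rw [Pi.add_apply, hf0, zero_add] at hv
        exact hv ((hgf v hv).symm.trans hf0)
      obtain ⟨v0, hv0⟩ := hg0
      have hlt : (Finset.univ.filter (fun v => (f + g) v ≠ 0)).card < m := by
        rw [← hm]
        apply Finset.card_lt_card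
        refine ⟨?_, ?_⟩
        · intro v hv
          rw [Finset.mem_filter] at hv ⊢
          exact ⟨hv.1, hsub v hv.2⟩
        · intro hcon
          have h2 : v0 ∈ Finset.univ.filter (fun v => f v ≠ 0) := by
            rw [Finset.mem_filter]
            exact ⟨Finset.mem_univ _, by rw [hgf v0 hv0]; exact hv0⟩
          have h3 := hcon h2
          rw [Finset.mem_filter] at h3
          apply h3.2
          rw [Pi.add_apply, hgf v0 hv0]
          exact CharTwo.add_self_eq_zero _
      obtain ⟨k, h2, h3, h4, h5⟩ := ih _ hlt (f + g) rfl hN h1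
      exact ⟨k, h2, h3, fun v hv => hsub v (h4 v hv), h5⟩
    · obtain ⟨v0, hv0, hv1⟩ := hgne
      have hsub : ∀ v, g v ≠ 0 → f v ≠ 0 := fun v hv => by rw [hgf v hv]; exact hv
      have hlt : (Finset.univ.filter (fun v => g v ≠ 0)).card < m := by
        rw [← hm]
        apply Finset.card_lt_card
        refine ⟨?_, ?_⟩
        · intro v hv
          rw [Finset.mem_filter] at hv ⊢
          exact ⟨hv.1, hsub v hv.2⟩
        · intro hcon
          have h2 : v0 ∈ Finset.univ.filter (fun v => f v ≠ 0) := by
            rw [Finset.mem_filter]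
            exact ⟨Finset.mem_univ _, hv0⟩
          have h3 := hcon h2
          rw [Finset.mem_filter] at h3
          exact h3.2 hv1
      obtain ⟨k, h2, h3, h4, h5⟩ := ih _ hlt g rfl hgN hgy
      exact ⟨k, h2, h3, fun v hv => hsub v (h4 v hv), h5⟩

/-- kernel words do not split -/
theorem kernel_not_splits {B : Submodule (ZMod 2) (V → K)} (hH : IsMat B H) {k : V → ZMod 2}
    (hk : N H e k) (g : V) : ¬ Splits B (wd H k) g := by
  rintro ⟨c₁, hc₁, c₂, hc₂, hs, hg1, hg2, hd⟩
  have e1 := eq_wd hH hc₁
  have e2 := eq_wd hH hc₂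
  rw [e1] at hg1
  have h1 := sum_lap hH.sym (fun v => (c₁ v).1)
  rw [Fintype.sum_eq_single g] at h1
  · rw [(lap_of_z hg1).2] at h1
    exact one_ne_zero h1
  · intro v hv
    rcases hd v hv with h2 | h2
    · rw [e1] at h2
      exact (lap_of_zero h2).2
    · have h3 : wd H (fun v => (c₁ v).1) v = wd H k v := by
        rw [← e1, ← hs, Pi.add_apply, h2, add_zero]
      rw [(eq_of_wd h3).2, hk.2]

theorem wd_kernel_zero {k : V → ZMod 2} (hk : N H e k) {v : V} :
    wd H k v = 0 ↔ k v = 0 :=
  ⟨fun h => (lap_of_zero h).1, fun h => zero_of_lap h (hk.2 v)⟩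

theorem N.zfree {k : V → ZMod 2} (hk : N H e k) : ZFree (wd H k) := by
  intro v hv
  have h1 := lap_of_z hv
  rw [hk.2] at h1
  exact zero_ne_one h1.2

theorem kernel_aux {B : Submodule (ZMod 2) (V → K)} {S : (V → K) → Finset V → Prop}
    (hH : IsMat B H) (hS : RSides B e S) : ∀ (m : ℕ) (k : V → ZMod 2) (Y : Finset V),
    Y.card = m → Y.Nonempty → N H e k → Irr B (wd H k) → S (wd H k) Y → False := by
  intro m
  induction m using Nat.strong_induction_on with
  | _ m ih =>
  intro k Y hm hY hk hI hSY
  obtain ⟨y, hy⟩ := hY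
  have hone : ∀ v, Lap H (fun _ => (1 : ZMod 2)) v = 0 := by
    intro v
    unfold Lap
    refine Finset.sum_eq_zero fun w _ => ?_
    rw [show (1 : ZMod 2) + 1 = 0 from by decide, mul_zero]
  obtain ⟨k', hk', h1, h2, h3⟩ := hS.part _ _ hSY (wd H fun _ => 1) (wd_mem hH _) (by
    intro v hv
    right
    have h4 : k v = 1 := by
      rcases two (k v) with h | h
      · exact absurd ((wd_kernel_zero hk).2 h) hv
      · exact h
    exact wd_eq h4.symm (by rw [hone, hk.2]))
  have hw := eq_wd hH hk'
  set g : V → ZMod 2 := fun v => (k' v).1 with hg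
  have hgN : N H e g := by
    refine ⟨?_, fun v => ?_⟩
    · have h4 : k' e = 0 := h2 e ((wd_kernel_zero hk).2 hk.1) (hS.root _ _ hSY)
      rw [hg]
      show (k' e).1 = 0
      rw [h4]
      rfl
    · by_cases hv : wd H k v = 0
      · by_cases hvY : v ∈ Y
        · have h4 : wd H g v = wd H (fun _ => 1) v := by rw [← hw]; exact h1 v hvY
          rw [(eq_of_wd h4).2, hone]
        · have h4 : wd H g v = 0 := by rw [← hw]; exact h2 v hv hvY
          exact (lap_of_zero h4).2
      · rcases h3 v hv with h4 | h4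
        · have h5 : wd H g v = 0 := by rw [← hw]; exact h4
          exact (lap_of_zero h5).2
        · have h5 : wd H g v = wd H k v := by rw [← hw]; exact h4
          rw [(eq_of_wd h5).2, hk.2]
  have hgy : g y ≠ 0 := by
    have h4 : wd H g y = wd H (fun _ => 1) y := by rw [← hw]; exact h1 y hy
    rw [(eq_of_wd h4).1]
    exact one_ne_zero
  obtain ⟨k2, hk2, hk2y, hk2g, hk2I⟩ := kmin hH y _ g rfl hgN hgy
  have hk2z := hk2.zfree
  rcases hS.mono _ _ hSY hI (wd H k2) (wd_mem hH _) hk2z (by
      intro h
      exact hk2y ((wd_kernel_zero hk2).1 (congrFun h y))) hk2I (by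
      intro v hv
      rcases two (k2 v) with h | h
      · left
        exact (wd_kernel_zero hk2).2 h
      · right
        have h4 : k v = 1 := by
          rcases two (k v) with h' | h'
          · exact absurd ((wd_kernel_zero hk).2 h') hv
          · exact h'
        exact wd_eq (h.trans h4.symm) (by rw [hk2.2, hk.2])) (by
      intro v hv hvY
      rw [wd_kernel_zero hk2]
      by_contra hcon
      apply hk2g v hcon
      show (k' v).1 = 0
      rw [h2 v hv hvY]
      rfl) with ⟨g', h4⟩ | ⟨Y', hY', hne, hS'⟩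
  · exact kernel_not_splits hH hk2 g' h4
  · have hlt : Y'.card < m := by
      rw [← hm]
      apply Finset.card_lt_card
      refine ⟨hY', fun hcon => ?_⟩
      exact hk2y ((wd_kernel_zero hk2).1 (hS.zero _ _ hS' y (hcon hy)))
    exact ih _ hlt k2 Y' rfl hne hk2 hk2I hS'

/-- **the kernel is zero** -/
theorem kernel {B : Submodule (ZMod 2) (V → K)} {S : (V → K) → Finset V → Prop}
    (hH : IsMat B H) (hS : RSides B e S) (f : V → ZMod 2) (he : f e = 0)
    (h : ∀ v, v ≠ e → Lap H f v = 0) : f = 0 := by
  have hle : Lap H f e = 0 := by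
    have h1 := sum_lap hH.sym f
    rw [Fintype.sum_eq_single e h] at h1
    exact h1
  have hN : N H e f := ⟨he, fun v => by
    by_cases hv : v = e
    · rw [hv, hle]
    · exact h v hv⟩
  by_contra hf
  have hy : ∃ y, f y ≠ 0 := by
    by_contra hcon
    push Not at hcon
    exact hf (funext hcon)
  obtain ⟨y, hy⟩ := hy
  obtain ⟨k, hk, hky, _, hkI⟩ := kmin hH y _ f rfl hN hy
  rcases hS.ex (wd H k) (wd_mem hH _) hk.zfree ((wd_kernel_zero hk).2 hk.1) (by
      intro h'
      exact hky ((wd_kernel_zero hk).1 (congrFun h' y))) hkI with ⟨g, hg⟩ | ⟨Y, hne, hSY⟩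
  · exact kernel_not_splits hH hk g hg
  · exact kernel_aux hH hS _ k Y rfl hne hk hkI hSY

/-- the inverse of the reduced Laplacian -/
theorem exists_inv' (hs : ∀ u v, H u v = H v u)
    (hker : ∀ f : V → ZMod 2, f e = 0 → (∀ v, v ≠ e → Lap H f v = 0) → f = 0) :
    ∃ M : V → V → ZMod 2, (∀ x, M x e = 0) ∧
      ∀ x v, Lap H (M x) v = (if v = x then 1 else 0) + (if v = e then 1 else 0) := by
  set R : (V → ZMod 2) →+ (V → ZMod 2) :=
    { toFun := fun f v => if v = e then f e else Lap H f v
      map_zero' := by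
        funext v
        by_cases hv : v = e
        · simp [hv]
        · simp [hv, Lap]
      map_add' := by
        intro f g
        funext v
        by_cases hv : v = e
        · simp [hv]
        · simp [hv, lap_add] } with hR
  have hval : ∀ f v, R f v = if v = e then f e else Lap H f v := fun f v => rfl
  have hinj : Function.Injective R := by
    rw [injective_iff_map_eq_zero]
    intro f hf
    apply hker f
    · have h1 := congrFun hf e
      rw [hval, if_pos rfl] at h1
      exact h1
    · intro v hv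
      have h1 := congrFun hf v
      rw [hval, if_neg hv] at h1
      exact h1
  have hsur : Function.Surjective R := Finite.injective_iff_surjective.1 hinj
  choose M hM using fun x : V => hsur (fun v => if v = e then 0 else if v = x then 1 else 0)
  have h0 : ∀ x, M x e = 0 := by
    intro x
    have h1 := congrFun (hM x) e
    rw [hval, if_pos rfl, if_pos rfl] at h1
    exact h1
  have h1 : ∀ x v, v ≠ e → Lap H (M x) v = if v = x then 1 else 0 := by
    intro x v hv
    have h2 := congrFun (hM x) v
    rw [hval, if_neg hv, if_neg hv] at h2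
    exact h2
  refine ⟨M, h0, fun x v => ?_⟩
  by_cases hv : v = e
  · subst hv
    have h2 := sum_lap hs (M x)
    rw [Fintype.sum_eq_add_sum_subtype_ne _ v] at h2
    have h3 : ∑ i : {w // w ≠ v}, Lap H (M x) i.1 = ∑ i : {w // w ≠ v}, if i.1 = x then 1 else 0 :=
      Finset.sum_congr rfl fun i _ => h1 x i.1 i.2
    have h4 : ∑ w, (if w = x then (1 : ZMod 2) else 0) = 1 := by
      rw [Finset.sum_ite_eq' Finset.univ x, if_pos (Finset.mem_univ x)]
    rw [Fintype.sum_eq_add_sum_subtype_ne _ v, ← h3] at h4
    rw [if_pos rfl]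
    revert h2 h4
    generalize Lap H (M x) v = A
    generalize (∑ i : {w // w ≠ v}, Lap H (M x) i.1) = B
    generalize (if v = x then (1 : ZMod 2) else 0) = C
    revert A B C
    decide
  · rw [h1 x v hv, if_neg hv, add_zero]

end Pool.Agent.H6.FQ
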