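import Pool.Agent.H6.FQ.Heart
import Pool.Agent.H95.End.Plug

set_option autoImplicit false

/-!
Row (B) (MP_a46c6f_co, full Q1).
-/

namespace Pool.Agent.H6.FQ

/-- row (B) -/
theorem rowB : Pool.Agent.H7.Q.RowB := by
  intro X _ _ B e S H _ hH hS
  exact side_main hH hS

theorem endSide' : Pool.Agent.H62.Q1.EndSide := Pool.Agent.H95.End.endSide rowB

end Pool.Agent.H6.FQ
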