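import Pool.Agent.H57.Code.Lp
import Pool.Agent.H64.Pent.Defs

set_option autoImplicit false

/-!
Sides of the words of the code of a permutation (MP_a46c6f_co, full Q1).
-/

namespace Pool.Agent.H6.FQ

open Pool.Agent.H98.Code Pool.Agent.H57.Code Pool.Agent.H64.Pent

variable {n : ℕ}

/-- the own edges of the side `(a, b)` -/
def Own [NeZero n] (p : Equiv.Perm (ZMod n)) (a b : ZMod n → ZMod 2) : Finset (ZMod n) :=
  Finset.univ.filter (fun i => a (i - 1) = 1 ∧ a i = 1 ∧ b (p i - 1) = 1 ∧ b (p i) = 1)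

/-- `Y` is the set of the own edges of a side of `u` -/
def S [NeZero n] (p : Equiv.Perm (ZMod n)) (u : ZMod n → K) (Y : Finset (ZMod n)) : Prop :=
  ∃ a b, Ev p a b ∧ u = word p a b ∧ ZFree u ∧ Y = Own p a b

lemma zf_cases : ∀ x y s t : ZMod 2, x + y = s + t → (x + y, y + t) ≠ z →
    (x = 0 ∧ y = 0 ∧ s = 0 ∧ t = 0) ∨ (x = 1 ∧ y = 1 ∧ s = 1 ∧ t = 1) ∨
      (x + y = 1 ∧ s + t = 1) := by
  decide

lemma z2' : ∀ x : ZMod 2, x = 0 ∨ x = 1 := by decide

theorem wc [NeZero n] (p : Equiv.Perm (ZMod n)) (hC : Crit p) (u : ZMod n → K)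
    (h : S p u ∅) (hu : u ≠ 0) : ∃ g, Splits (Lp p) u g := by
  obtain ⟨a, b, hev, rfl, hz, hY⟩ := h
  have hown : ∀ i, ¬ (a (i - 1) = 1 ∧ a i = 1 ∧ b (p i - 1) = 1 ∧ b (p i) = 1) := by
    intro i hi
    have h1 : i ∈ Own p a b := by
      unfold Own
      simp only [Finset.mem_filter, Finset.mem_univ, true_and]
      exact hi
    rw [← hY] at h1
    exact absurd h1 (Finset.notMem_empty i)
  have hA : Alt p a b := by
    intro i
    rcases zf_cases _ _ _ _ (hev i) (hz i) with h1 | h1 | h1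
    · exact Or.inl h1
    · exact absurd h1 (hown i)
    · exact Or.inr h1
  have hne : ∃ i, a i = 1 := by
    by_contra hcon
    push Not at hcon
    have h0 : ∀ i, a i = 0 := fun i => (z2' (a i)).resolve_right (hcon i)
    apply hu
    funext i
    rcases hA i with h1 | h1
    · show (a (i - 1) + a i, a i + b (p i)) = 0
      rw [h1.1, h1.2.1, h1.2.2.2]
      decide
    · exfalso
      have h2 := h1.1
      rw [h0, h0] at h2
      exact absurd h2 (by decide)
  obtain ⟨e, s, t, he1, he2, hst⟩ := hC a b hA hne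
  have hev' : Ev p s t := by
    intro i
    by_cases hi : i = e
    · subst hi
      rw [he2.1, he2.2.1, he2.2.2.1, he2.2.2.2]
      decide
    · obtain ⟨v, h1, h2, h3, h4⟩ := hst i hi
      have h5 := hev i
      rw [h1, h2, h3, h4]
      generalize a (i - 1) = x1 at *
      generalize a i = x2 at *
      generalize b (p i - 1) = x3 at *
      generalize b (p i) = x4 at *
      clear h1 h2 h3 h4
      revert x1 x2 x3 x4 v
      decide
  refine ⟨e, word p s t, word_mem p s t hev', word p s t + word p a b,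
    (Lp p).add_mem (word_mem p s t hev') (word_mem p a b hev), ?_, ?_, ?_, ?_⟩
  · funext i
    show word p s t i + (word p s t i + word p a b i) = word p a b i
    generalize word p s t i = x1
    generalize word p a b i = x2
    revert x1 x2
    decide
  · show (s (e - 1) + s e, s e + t (p e)) = z
    rw [he2.1, he2.2.1, he2.2.2.2]
    decide
  · show (s (e - 1) + s e, s e + t (p e)) + (a (e - 1) + a e, a e + b (p e)) = z
    rw [he2.1, he2.2.1, he2.2.2.2, he1.1, he1.2.1, he1.2.2.2]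
    decide
  · intro i hi
    obtain ⟨v, h1, h2, h3, h4⟩ := hst i hi
    show (s (i - 1) + s i, s i + t (p i)) = 0 ∨
      (s (i - 1) + s i, s i + t (p i)) + (a (i - 1) + a i, a i + b (p i)) = 0
    rw [h1, h2, h4]
    generalize a (i - 1) = x1 at *
    generalize a i = x2 at *
    generalize b (p i) = x4 at *
    clear h1 h2 h3 h4
    revert x1 x2 x4 v
    decide

theorem ex [NeZero n] (p : Equiv.Perm (ZMod n)) (u : ZMod n → K) (hu : u ∈ Lp p)
    (hz : ZFree u) : ∃ Y, S p u Y := by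
  obtain ⟨a, b, hev, rfl⟩ := hu
  exact ⟨_, a, b, hev, rfl, hz, rfl⟩

lemma mem_own [NeZero n] (p : Equiv.Perm (ZMod n)) (a b : ZMod n → ZMod 2) (i : ZMod n) :
    i ∈ Own p a b ↔ (a (i - 1) = 1 ∧ a i = 1 ∧ b (p i - 1) = 1 ∧ b (p i) = 1) := by
  unfold Own
  simp only [Finset.mem_filter, Finset.mem_univ, true_and]

lemma own_zero [NeZero n] (p : Equiv.Perm (ZMod n)) (a b : ZMod n → ZMod 2) (i : ZMod n)
    (h : i ∈ Own p a b) : word p a b i = 0 := by
  rw [mem_own] at h
  show (a (i - 1) + a i, a i + b (p i)) = 0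
  rw [h.1, h.2.1, h.2.2.2]
  decide

theorem mem [NeZero n] (p : Equiv.Perm (ZMod n)) (u : ZMod n → K) (Y : Finset (ZMod n))
    (h : S p u Y) : u ∈ Lp p ∧ ZFree u ∧ ∀ v ∈ Y, u v = 0 := by
  obtain ⟨a, b, hev, rfl, hz, rfl⟩ := h
  exact ⟨word_mem p a b hev, hz, fun v hv => own_zero p a b v hv⟩

lemma d_compl : ∀ x y s t : ZMod 2, x + y = s + t → (x + y, y + t) ≠ z →
    ((1 + x = 1 ∧ 1 + y = 1 ∧ 1 + s = 1 ∧ 1 + t = 1) ↔
      ((x + y, y + t) = (0 : K) ∧ ¬ (x = 1 ∧ y = 1 ∧ s = 1 ∧ t = 1))) := by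
  decide

theorem compl [NeZero n] (p : Equiv.Perm (ZMod n)) (u : ZMod n → K) (Y : Finset (ZMod n))
    (h : S p u Y) : S p u (Finset.univ.filter (fun v => u v = 0 ∧ v ∉ Y)) := by
  obtain ⟨a, b, hev, rfl, hz, rfl⟩ := h
  refine ⟨fun i => 1 + a i, fun j => 1 + b j, hev.compl, (word_compl p a b).symm, hz, ?_⟩
  ext i
  rw [mem_own]
  simp only [Finset.mem_filter, Finset.mem_univ, true_and]
  rw [mem_own]
  exact (d_compl _ _ _ _ (hev i) (hz i)).symm

lemma d_ev : ∀ x y s t x' y' s' t' : ZMod 2, x + y = s + t → x' + y' = s' + t' →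
    (x + y, y + t) ≠ z →
    ((x + y, y + t) ≠ (0 : K) → (x' + y', y' + t') = (0 : K) ∨ (x' + y', y' + t') = (x + y, y + t)) →
    x * x' + y * y' = s * s' + t * t' := by
  intro x y s t x' y' s' t'
  rcases z2' x with rfl | rfl <;> rcases z2' y with rfl | rfl <;> rcases z2' s with rfl | rfl <;>
    rcases z2' t with rfl | rfl <;> rcases z2' x' with rfl | rfl <;>
    rcases z2' y' with rfl | rfl <;> rcases z2' s' with rfl | rfl <;>
    rcases z2' t' with rfl | rfl <;> decide

lemma d_on : ∀ x y s t x' y' s' t' : ZMod 2, x + y = s + t → x' + y' = s' + t' →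
    (x + y, y + t) ≠ z → (x + y, y + t) ≠ (0 : K) →
    ((x' + y', y' + t') = (0 : K) ∨ (x' + y', y' + t') = (x + y, y + t)) →
    ((x * x' + y * y', y * y' + t * t') = (0 : K) ∨
      (x * x' + y * y', y * y' + t * t') = (x + y, y + t)) := by
  intro x y s t x' y' s' t'
  rcases z2' x with rfl | rfl <;> rcases z2' y with rfl | rfl <;> rcases z2' s with rfl | rfl <;>
    rcases z2' t with rfl | rfl <;> rcases z2' x' with rfl | rfl <;>
    rcases z2' y' with rfl | rfl <;> rcases z2' s' with rfl | rfl <;>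
    rcases z2' t' with rfl | rfl <;> decide

lemma d_off : ∀ x y s t x' y' t' : ZMod 2, x + y = s + t →
    (x + y, y + t) = (0 : K) → ¬ (x = 1 ∧ y = 1 ∧ s = 1 ∧ t = 1) →
    (x * x' + y * y', y * y' + t * t') = (0 : K) := by
  intro x y s t x' y' t'
  rcases z2' x with rfl | rfl <;> rcases z2' y with rfl | rfl <;> rcases z2' s with rfl | rfl <;>
    rcases z2' t with rfl | rfl <;> rcases z2' x' with rfl | rfl <;>
    rcases z2' y' with rfl | rfl <;> rcases z2' t' with rfl | rfl <;> decide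

/-- the part of `k` inside the side -/
theorem inter [NeZero n] (p : Equiv.Perm (ZMod n)) (a b c d : ZMod n → ZMod 2) (hev : Ev p a b)
    (hz : ZFree (word p a b)) (hev' : Ev p c d)
    (hk : ∀ v, word p a b v ≠ 0 → word p c d v = 0 ∨ word p c d v = word p a b v) :
    Ev p (fun i => a i * c i) (fun j => b j * d j) ∧
    (∀ v ∈ Own p a b, word p (fun i => a i * c i) (fun j => b j * d j) v = word p c d v) ∧
    (∀ v, word p a b v = 0 → v ∉ Own p a b →
      word p (fun i => a i * c i) (fun j => b j * d j) v = 0) ∧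
    (∀ v, word p a b v ≠ 0 → word p (fun i => a i * c i) (fun j => b j * d j) v = 0 ∨
      word p (fun i => a i * c i) (fun j => b j * d j) v = word p a b v) ∧
    Own p (fun i => a i * c i) (fun j => b j * d j) ⊆ Own p a b := by
  refine ⟨?_, ?_, ?_, ?_, ?_⟩
  · intro i
    exact d_ev _ _ _ _ _ _ _ _ (hev i) (hev' i) (hz i) (hk i)
  · intro v hv
    rw [mem_own] at hv
    show (a (v - 1) * c (v - 1) + a v * c v, a v * c v + b (p v) * d (p v)) =
      (c (v - 1) + c v, c v + d (p v))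
    rw [hv.1, hv.2.1, hv.2.2.2, one_mul, one_mul, one_mul]
  · intro v hv hv'
    rw [mem_own] at hv'
    exact d_off _ _ _ _ _ _ _ (hev v) hv hv'
  · intro v hv
    exact d_on _ _ _ _ _ _ _ _ (hev v) (hev' v) (hz v) hv (hk v hv)
  · intro v hv
    rw [mem_own] at hv ⊢
    refine ⟨?_, ?_, ?_, ?_⟩
    · exact (show ∀ x y : ZMod 2, x * y = 1 → x = 1 by decide) _ _ hv.1
    · exact (show ∀ x y : ZMod 2, x * y = 1 → x = 1 by decide) _ _ hv.2.1
    · exact (show ∀ x y : ZMod 2, x * y = 1 → x = 1 by decide) _ _ hv.2.2.1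
    · exact (show ∀ x y : ZMod 2, x * y = 1 → x = 1 by decide) _ _ hv.2.2.2

theorem part [NeZero n] (p : Equiv.Perm (ZMod n)) (u : ZMod n → K) (Y : Finset (ZMod n))
    (h : S p u Y) (k : ZMod n → K) (hkL : k ∈ Lp p)
    (hk : ∀ v, u v ≠ 0 → k v = 0 ∨ k v = u v) :
    ∃ k' ∈ Lp p, (∀ v ∈ Y, k' v = k v) ∧ (∀ v, u v = 0 → v ∉ Y → k' v = 0) ∧
      (∀ v, u v ≠ 0 → k' v = 0 ∨ k' v = u v) ∧ (ZFree k' → ∃ Y', Y' ⊆ Y ∧ S p k' Y') := by
  obtain ⟨a, b, hev, rfl, hz, rfl⟩ := h
  obtain ⟨c, d, hev', rfl⟩ := hkL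
  obtain ⟨h1, h2, h3, h4, h5⟩ := inter p a b c d hev hz hev' hk
  exact ⟨_, word_mem p _ _ h1, h2, h3, h4, fun hzf => ⟨_, h5, _, _, h1, rfl, hzf, rfl⟩⟩

lemma K_add_self : ∀ x : K, x + x = 0 := by decide

theorem mono [NeZero n] (p : Equiv.Perm (ZMod n)) (u : ZMod n → K) (Y : Finset (ZMod n))
    (h : S p u Y) (hI : ∀ d ∈ Lp p, (∀ v, d v = 0 ∨ d v = u v) → d = 0 ∨ d = u)
    (k : ZMod n → K) (hkL : k ∈ Lp p) (hkz : ZFree k)
    (hk : ∀ v, u v ≠ 0 → k v = 0 ∨ k v = u v) (hk0 : ∀ v, u v = 0 → v ∉ Y → k v = 0) :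
    ∃ Y', Y' ⊆ Y ∧ S p k Y' := by
  obtain ⟨a, b, hev, rfl, hz, rfl⟩ := h
  obtain ⟨c, d, hev', rfl⟩ := hkL
  obtain ⟨h1, h2, h3, h4, h5⟩ := inter p a b c d hev hz hev' hk
  have hd : word p (fun i => a i * c i) (fun j => b j * d j) + word p c d ∈ Lp p :=
    (Lp p).add_mem (word_mem p _ _ h1) (word_mem p _ _ hev')
  have hd2 : ∀ v, (word p (fun i => a i * c i) (fun j => b j * d j) + word p c d) v = 0 ∨
      (word p (fun i => a i * c i) (fun j => b j * d j) + word p c d) v = word p a b v := by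
    intro v
    show word p (fun i => a i * c i) (fun j => b j * d j) v + word p c d v = 0 ∨
      word p (fun i => a i * c i) (fun j => b j * d j) v + word p c d v = word p a b v
    by_cases hv : word p a b v = 0
    · by_cases hv' : v ∈ Own p a b
      · left
        rw [h2 v hv']
        exact K_add_self _
      · left
        rw [h3 v hv hv', hk0 v hv hv', add_zero]
    · rcases h4 v hv with e1 | e1 <;> rcases hk v hv with e2 | e2
      · left
        rw [e1, e2, add_zero]
      · right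
        rw [e1, e2, zero_add]
      · right
        rw [e1, e2, add_zero]
      · left
        rw [e1, e2]
        exact K_add_self _
  rcases hI _ hd hd2 with h6 | h6
  · refine ⟨_, h5, _, _, h1, ?_, hkz, rfl⟩
    funext v
    have h7 := congrFun h6 v
    rw [Pi.add_apply] at h7
    exact ((show ∀ x y : K, x + y = 0 → y = x by decide) _ _ h7)
  · have hc : ∀ v, word p a b v ≠ 0 →
        word p (fun i => 1 + c i) (fun j => 1 + d j) v = 0 ∨
          word p (fun i => 1 + c i) (fun j => 1 + d j) v = word p a b v := by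
      intro v hv
      rw [word_compl]
      exact hk v hv
    obtain ⟨g1, g2, g3, g4, g5⟩ := inter p a b _ _ hev hz hev'.compl hc
    refine ⟨_, g5, _, _, g1, ?_, hkz, rfl⟩
    funext v
    have h7 := congrFun h6 v
    have h8 : word p (fun i => a i * c i) (fun j => b j * d j) v +
        word p (fun i => a i * (1 + c i)) (fun j => b j * (1 + d j)) v = word p a b v := by
      show (a (v - 1) * c (v - 1) + a v * c v, a v * c v + b (p v) * d (p v)) +
        (a (v - 1) * (1 + c (v - 1)) + a v * (1 + c v),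
          a v * (1 + c v) + b (p v) * (1 + d (p v))) = (a (v - 1) + a v, a v + b (p v))
      generalize a (v - 1) = x1
      generalize a v = x2
      generalize b (p v) = x4
      generalize c (v - 1) = y1
      generalize c v = y2
      generalize d (p v) = y4
      revert x1 x2 x4 y1 y2 y4
      decide
    rw [Pi.add_apply] at h7
    rw [← h8] at h7
    exact (show ∀ x y w : K, x + y = x + w → y = w by decide) _ _ _ h7

end Pool.Agent.H6.FQ
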